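import Pool.Agent.Y850.SC.Unb

set_option autoImplicit false

/-!
# A stochastic convolution in a Hilbert space all of whose versions are almost surely unbounded

Q1 asks whether every stochastic convolution in a 2-smooth space has a continuous version. We show:
already for Hilbert spaces, and for uniformly bounded `C_0`-semigroups, it can happen that for
*every* version the path is *almost surely unbounded*, even along one fixed countable set `D` of
times (which depends on the semigroup only). So no version has locally bounded, right continuous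
with left limits, or continuous paths, not even with positive probability.

The definitions (in `Pool/Agent/H725R3/SConv/Defs.lean`; time is indexed by `ℝ`, only `[0,T]`
matters) and the example are those of the starting result `NoContinuousVersion`:
* `IsBM P F T W`: `W` is a standard real Brownian motion on `[0,T]` with respect to the
  filtration `F`;
* `IsItoIntegral P F W t φ Y`: `Y` is a version of the Ito integral `∫_0^t φ_s dW_s`;
* `IsC0Semigroup S`: `S` is a `C_0`-semigroup of bounded operators.

New: in the starting result the paths are shown to be discontinuous with probability at least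
`1/2`. Here the good events of the time blocks are treated conditionally on the past (given any
event of the past, the outcomes of the kicks in the next block have the same law,
`Y850.SC.coins_cond`), so that infinitely many blocks are good almost surely, and the errors of the
discrete comparison are summable over the blocks (Borel-Cantelli).
-/

open MeasureTheory ProbabilityTheory Set Pool.Agent.H725R3.SConv
open scoped ENNReal

universe u

/-- For every `T > 0` there are a real Hilbert space `X`, a uniformly bounded `C_0`-semigroup `S` on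
`X` and a countable set `D ⊆ [0,T]` such that for every filtered probability space with a Brownian
motion `W` there is a progressively measurable `g ∈ L²(Ω; L²(0,T;X))` for which the stochastic
convolution `u(t) = ∫_0^t S(t-s) g_s dW_s` exists (and is a.s. unique) for each `t ∈ [0,T]`,
and for *every* version `u` of it almost surely `sup_{t ∈ D} ‖u(t)‖ = ∞` and the path is not
continuous; in particular there is no version with almost surely continuous paths. -/
theorem Pool.Agent.Results.MP_f3f192_pr.AlmostSurelyUnbounded.result (T : ℝ) (hT : 0 < T) :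
    ∃ (X : Type) (_ : NormedAddCommGroup X) (_ : InnerProductSpace ℝ X) (_ : CompleteSpace X)
      (S : ℝ → X →L[ℝ] X) (D : Set ℝ), IsC0Semigroup S ∧ (∀ t, ‖S t‖ ≤ 10) ∧
      D.Countable ∧ D ⊆ Icc 0 T ∧
      ∀ (Ω : Type u) (mΩ : MeasurableSpace Ω) (P : Measure Ω) (F : Filtration ℝ mΩ)
        (W : ℝ → Ω → ℝ), IsProbabilityMeasure P → IsBM P F T W →
        ∃ g : ℝ → Ω → X, IsStronglyProgressive F g ∧
          (∫⁻ ω, (∫⁻ s in Icc 0 T, ‖g s ω‖ₑ ^ 2) ∂P) < ∞ ∧
          (∀ t ∈ Icc 0 T, ∃ Y : Ω → X,
            IsItoIntegral P F W t (fun s ω => S (t - s) (g s ω)) Y ∧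
            ∀ Y' : Ω → X, IsItoIntegral P F W t (fun s ω => S (t - s) (g s ω)) Y' →
              Y' =ᵐ[P] Y) ∧
          ∀ u : ℝ → Ω → X,
            (∀ t ∈ Icc 0 T, IsItoIntegral P F W t (fun s ω => S (t - s) (g s ω)) (u t)) →
            (∀ᵐ ω ∂P, (∀ C : ℝ, ∃ t ∈ D, C < ‖u t ω‖) ∧
              ¬ ContinuousOn (fun t => u t ω) (Icc 0 T)) ∧
            ¬ ∀ᵐ ω ∂P, ContinuousOn (fun t => u t ω) (Icc 0 T) := by
  obtain ⟨c⟩ := exists_par hT
  refine ⟨XX, inferInstance, inferInstance, inferInstance, c.S, Pool.Agent.Y850.SC.Dset c, c.isC0,
    fun t => ?_, Pool.Agent.Y850.SC.Dset_countable c, Pool.Agent.Y850.SC.Dset_subset c, ?_⟩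
  · exact (c.S t).opNorm_le_bound (by norm_num) (SS_norm_le c.r c.r0 c.rmono t)
  · intro Ω mΩ P F W hP hW
    refine ⟨c.g W, c.prog_g hW, c.g_L2 hW, fun t ht => ?_, fun u hu => ?_⟩
    · obtain ⟨Y, hY⟩ := c.exists_conv hW ht.2
      exact ⟨Y, hY, fun Y' hY' => hY.unique ht.2 hW hY' (c.sm_Sg hW t)⟩
    · have h1 := Pool.Agent.Y850.SC.ae_unbounded c hW (u := u) fun t h0 h1 => hu t ⟨h0, h1⟩
      have h2 : ∀ᵐ ω ∂P, (∀ C : ℝ, ∃ t ∈ Pool.Agent.Y850.SC.Dset c, C < ‖u t ω‖) ∧
          ¬ ContinuousOn (fun t => u t ω) (Icc 0 T) := by
        filter_upwards [h1] with ω hω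
        refine ⟨hω, fun hcont => ?_⟩
        obtain ⟨C, hC⟩ := isCompact_Icc.exists_bound_of_continuousOn hcont
        obtain ⟨t, ht, htC⟩ := hω C
        exact absurd (hC t (Pool.Agent.Y850.SC.Dset_subset c ht)) (not_le.2 htC)
      refine ⟨h2, fun hcont => ?_⟩
      have h3 : ∀ᵐ ω ∂P, False := by
        filter_upwards [h2, hcont] with ω ha hb
        exact ha.2 hb
      have h4 : P = 0 := by
        rw [← ae_eq_bot]
        exact Filter.eventually_false_iff_eq_bot.1 h3
      exact IsProbabilityMeasure.ne_zero P h4
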